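import Pool.Agent.H207R2.BL.Mirror
import Pool.Agent.H207R2.BL.Minor

/-!
The Birkhoff-Lewis inequality for mirror symmetric plane graphs.
-/

set_option autoImplicit false

namespace Pool.Agent.Results.MP_0d034c_co.MirrorSymmetric

open Polynomial Pool.Agent.H207R2.BL

/-- Let `G` be a finite graph drawn in the plane symmetrically with respect to the `x`-axis, no edge
crossing the axis, and let `H` be its part in the closed upper half plane.  Then for all real
`q ≥ 4` one has `P(H,q)^2 ≤ q^n P(G,q)`, where `n` is the number of vertices on the axis; hence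
`P(G,q) ≥ 0` for all real `q ≥ 4`, with strict inequality if `q` is not an algebraic integer, and
with strict inequality for all `q > 4` if no minor of `H` has minimum degree at least `5`. -/
theorem result (V : Type) [Finite V] (G : SimpleGraph V) (f : V → ℝ × ℝ)
    (γ : V → V → ℝ → ℝ × ℝ) (h : MirrorDrawing G f γ) (p r : ℝ[X]) (hp : IsChrom G p)
    (hr : IsChrom (G.induce {v | 0 ≤ (f v).2}) r) :
    (∀ q : ℝ, 4 ≤ q → r.eval q ^ 2 ≤ q ^ (Nat.card {v // (f v).2 = 0}) * p.eval q) ∧
    (∀ q : ℝ, 4 ≤ q → 0 ≤ p.eval q) ∧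
    (∀ q : ℝ, 4 ≤ q → ¬ IsIntegral ℤ q → 0 < p.eval q) ∧
    (MinorDegLe 4 (G.induce {v | 0 ≤ (f v).2}) → ∀ q : ℝ, 4 < q → 0 < p.eval q) := by
  have h1 : ∀ q : ℝ, 4 ≤ q → r.eval q ^ 2 ≤ q ^ (Nat.card {v // (f v).2 = 0}) * p.eval q :=
    fun q hq => mirror_ineq G f γ h p r hp hr q hq
  have h2 : ∀ q : ℝ, 4 ≤ q → 0 < q ^ (Nat.card {v // (f v).2 = 0}) := by
    intro q hq
    have : (0 : ℝ) < q := by linarith
    positivity
  have h3 : ∀ q : ℝ, 4 ≤ q → 0 ≤ p.eval q := by
    intro q hq
    by_contra hcon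
    push Not at hcon
    have h5 := mul_neg_of_pos_of_neg (h2 q hq) hcon
    nlinarith [h1 q hq, sq_nonneg (r.eval q)]
  refine ⟨h1, h3, ?_, ?_⟩
  · intro q hq hint
    exact lt_of_le_of_ne (h3 q hq) (Ne.symm (not_root G p hp q hint))
  · intro hm q hq
    have h4 : 0 < r.eval q := by
      rw [eq_chr hr]
      exact minorDeg_pos 4 q (by exact_mod_cast hq) _ hm
    by_contra hcon
    push Not at hcon
    have h5 := mul_nonpos_of_nonneg_of_nonpos (h2 q hq.le).le hcon
    nlinarith [pow_pos h4 2, h1 q hq.le]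

end Pool.Agent.Results.MP_0d034c_co.MirrorSymmetric
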