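import Pool.Agent.H110R3.BP2.Core

/-!
The Birkhoff-Lewis inequality for plane graphs which are bipartite or become bipartite when the
lowest vertex is deleted.
-/

set_option autoImplicit false

namespace Pool.Agent.Results.MP_0d034c_co.NearBipartitePlanar

open Polynomial

/-- `f` is a drawing of `G` in the plane with straight non-crossing edges: vertices are distinct
points, no vertex lies in the interior of an edge, and the interiors of different edges are
disjoint. -/
def StraightDrawing {V : Type} (G : SimpleGraph V) (f : V → ℝ × ℝ) : Prop :=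
  Function.Injective f ∧
  (∀ u v w : V, G.Adj u v → f w ∉ openSegment ℝ (f u) (f v)) ∧
  (∀ u v u' v' : V, G.Adj u v → G.Adj u' v' → s(u, v) ≠ s(u', v') →
    Disjoint (openSegment ℝ (f u) (f v)) (openSegment ℝ (f u') (f v')))

/-- Let `G` be a finite graph drawn in the plane with straight non-crossing edges. Suppose that
`G` is bipartite, or that the drawing has a lowest vertex `u` and `G` becomes bipartite when `u` is
deleted. Then the chromatic polynomial (the polynomial counting proper `n`-colourings at each
natural `n`) is strictly positive at every real `q ≥ 4`. -/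
theorem result (V : Type) [Fintype V] (G : SimpleGraph V) (f : V → ℝ × ℝ)
    (hf : StraightDrawing G f)
    (hG : G.Colorable 2 ∨ ∃ u : V, (∀ v, v ≠ u → (f u).2 < (f v).2) ∧
      (G.induce {v | v ≠ u}).Colorable 2)
    (p : ℝ[X]) (hp : ∀ n : ℕ, p.eval (n : ℝ) = (Nat.card (G.Coloring (Fin n)) : ℝ))
    (q : ℝ) (hq : 4 ≤ q) : 0 < p.eval q := by
  rcases hG with hG | ⟨u, hu, hG⟩
  · exact Pool.Agent.H110R3.BP.main G hG f hf p hp q hq
  · exact Pool.Agent.H110R3.BP2.main_apex G u hG f hf hu p hp q hq

end Pool.Agent.Results.MP_0d034c_co.NearBipartitePlanar
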