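import Pool.Agent.H413R2.RP.Strip3

/-!
# The Birkhoff-Lewis conjecture for mirror-periodic pieces of lattices
-/

set_option autoImplicit false

namespace Pool.Agent.Results.MP_0d034c_co.ReflectedLattices

open Pool.Agent.H413R2.RP

theorem result :
    ∀ (h E : ℕ → ℕ → Prop), (∀ a b, E a b → a = b ∨ a = b + 1) →
      ∀ m k : ℕ, 1 ≤ m → Odd k →
        (∃ (f : Fin m × Fin k → ℝ × ℝ) (γ : Fin m × Fin k → Fin m × Fin k → ℝ → ℝ × ℝ),
          IsDrawing (Lat h E m k) f γ) ∧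
        ∀ p : Polynomial ℝ,
          (∀ n : ℕ, p.eval (n : ℝ) = (Nat.card ((Lat h E m k).Coloring (Fin n)) : ℝ)) →
          ∀ q : ℝ, 4 ≤ q → 0 < p.eval q := by
  intro h E hE m k hm hk
  refine ⟨⟨gf, gs, lat_drawing (noCross_of_band hE) m k⟩, ?_⟩
  intro p hp q hq
  rw [chrom_unique (G := Lat h E m k) hp (lp_spec h E m k)]
  obtain ⟨i, rfl⟩ := hk
  exact band_strip_pos hE m hm hq i

end Pool.Agent.Results.MP_0d034c_co.ReflectedLattices
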