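import Pool.Agent.H207R2.BL.Mirror

/-!
Reflection positivity of the chromatic polynomial of planar graphs for real `q ≥ 4`.
-/

set_option autoImplicit false

namespace Pool.Agent.Results.MP_0d034c_co.ReflectionPositivity

open Polynomial Pool.Agent.H207R2.BL

/-- Let `N 0, …, N (m-1)` be finite graphs with boundary vertices `0, …, n-1`, each of them drawn
in the closed upper half plane with the boundary vertices on the axis in increasing order, or, more
generally, without cross.  Let `p i j` be the chromatic polynomial of the graph obtained from `N i`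
and (the mirror image of) `N j` by identifying the boundary vertices.  Then the matrix of the values
`p i j (q)` is positive semidefinite for every real `q ≥ 4`. -/
theorem result (n m : ℕ) (V : Fin m → Type) [∀ i, Finite (V i)]
    (N : ∀ i, SimpleGraph (V i ⊕ Fin n)) (hN : ∀ i, DrawnInHalfPlane (N i) ∨ Crossless (N i))
    (p : Fin m → Fin m → ℝ[X]) (hp : ∀ i j, IsChrom (glue (N i) (N j)) (p i j))
    (q : ℝ) (hq : 4 ≤ q) (a : Fin m → ℝ) :
    0 ≤ ∑ i, ∑ j, a i * a j * (p i j).eval q := by
  refine psd V N (fun i => ?_) p hp q hq a
  rcases hN i with h | h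
  · obtain ⟨f, γ, h1, h2, h3, h4, h5⟩ := h
    exact crossless_of_drawing (N i) f γ h1 h2 h3 h4 h5
  · exact h

end Pool.Agent.Results.MP_0d034c_co.ReflectionPositivity
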